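import Pool.Agent.SyndeticSub.Core

namespace Pool.Agent.Results.MP_e6747d_al.AmenableSubgroups

open Pool.Agent.SyndeticSub

universe u v

/-- **Theorem.** Let `G` be a group of any cardinality, `H` a subgroup of finite index and
`π : H → Q` a homomorphism onto an infinite group `Q`, and suppose that `Q` has an amenable
subgroup `N` such that for every `k` some finite set meets every conjugate of `N` in at least `k`
elements; for example, `N` may be any infinite amenable normal subgroup of `Q`. Then `G` admits
a left-invariant syndetic submeasure. -/
theorem result (G : Type u) [Group G] (H : Subgroup G) [H.FiniteIndex]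
    (Q : Type v) [Group Q] [Infinite Q] (π : H →* Q) (hπ : Function.Surjective π)
    (hQ : (∃ N : Subgroup Q, N.Normal ∧ Infinite N ∧ IsAmenable N) ∨
      HasUniformlyInfiniteAmenable Q) :
    HasSyndeticSubmeasure G := by
  have hH : Infinite H := Infinite.of_surjective π hπ
  apply of_finiteIndex H
  apply of_quotient π hπ
  rcases hQ with ⟨N, hN, hinf, ham⟩ | h
  · exact of_amenable_normal N hN hinf ham
  · exact of_uniformly_infinite h

end Pool.Agent.Results.MP_e6747d_al.AmenableSubgroups
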