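import Pool.Agent.SyndeticSub.Core

namespace Pool.Agent.Results.MP_e6747d_al.SmallColourings

open Pool.Agent.SyndeticSub

universe u v

/-- **Theorem.** Let `G` be a group of any cardinality, `H` a subgroup of finite index and
`π : H → Q` a homomorphism onto an infinite group `Q` which has finite colourings of arbitrarily
small two-sided density in the sense of `Spread`; this is the case if `Q` has an unbounded
quasimorphism, or a homomorphism with infinite image into a compact metrizable group, or
subgroups of arbitrarily large finite index. Then `G` admits a left-invariant syndetic
submeasure. -/
theorem result (G : Type u) [Group G] (H : Subgroup G) [H.FiniteIndex]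
    (Q : Type v) [Group Q] [Infinite Q] (π : H →* Q) (hπ : Function.Surjective π)
    (hQ : Spread Q ∨ HasUnboundedQuasimorphism Q ∨ HasInfiniteCompactImage Q ∨
      HasLargeFiniteIndexSubgroups Q) :
    HasSyndeticSubmeasure G := by
  have hH : Infinite H := Infinite.of_surjective π hπ
  apply of_finiteIndex H
  apply of_quotient π hπ
  rcases hQ with h | h | h | h
  · exact of_spread h
  · exact of_spread (spread_of_quasimorphism h)
  · exact of_spread (spread_of_compactImage h)
  · exact of_spread (spread_of_largeFiniteIndex h)

end Pool.Agent.Results.MP_e6747d_al.SmallColourings
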