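import Pool.Agent.SyndeticSub.Core

namespace Pool.Agent.Results.MP_e6747d_al.SymmetricActions

open Pool.Agent.SyndeticSub

universe u v

/-- **Theorem.** Let `G` be a group of any cardinality, `H` a subgroup of finite index and
`π : H → Q` a homomorphism onto a group `Q` which acts on an infinite set such that every finite
subset is contained in a finite subset all of whose permutations are induced by `Q` (for
instance a highly transitive action). Then `G` admits a left-invariant syndetic submeasure. -/
theorem result (G : Type u) [Group G] (H : Subgroup G) [H.FiniteIndex]
    (Q : Type v) [Group Q] [Infinite Q] (π : H →* Q) (hπ : Function.Surjective π)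
    (hQ : HasSymmetricAction Q) :
    HasSyndeticSubmeasure G := by
  have hH : Infinite H := Infinite.of_surjective π hπ
  apply of_finiteIndex H
  apply of_quotient π hπ
  exact has_of_thin (thin_of_symmetric hQ)

end Pool.Agent.Results.MP_e6747d_al.SymmetricActions
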