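import Pool.Agent.SyndeticSub.Core

namespace Pool.Agent.Results.MP_e6747d_al.ThinSequences

open Pool.Agent.SyndeticSub

universe u

/-- **Theorem.** An infinite group `G` (of any cardinality) admits a left-invariant syndetic
submeasure if and only if it has syndetic sets `B 0, B 1, …` such that every finite union of left
translates `g_i⁻¹ B_{n_i}` with `∑ 1 / (n_i + 1) < 1` has a syndetic complement. -/
theorem result (G : Type u) [Group G] [Infinite G] :
    HasSyndeticSubmeasure G ↔ HasThinSequence G :=
  ⟨thin_of_has, has_of_thin⟩

end Pool.Agent.Results.MP_e6747d_al.ThinSequences
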